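import Pool.Agent.H47.WS.CFin

/-!
Upper bounds of the right order, with constants depending only on the order, for the correlations of `{p_n α}`,
`α` badly approximable.
-/

namespace Pool.Agent.Results.MP_e95273_nt.CorrBounded

open Pool.Agent.H1.PP Pool.Agent.H47.WS

theorem result (k : ℕ) : ∃ C : ℝ, 0 < C ∧ ∀ α : ℝ, BadlyApprox α → ∀ a b : Fin k → ℝ, (∀ j, a j < b j) →
    ∀ᶠ N : ℕ in Filter.atTop, (CT (xs α) N a b : ℝ) ≤ C * (∏ j, (b j - a j)) * N := by
  obtain ⟨C, hC, h⟩ := corr_bdd k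
  refine ⟨C, hC, ?_⟩
  rintro α ⟨-, c₀, hc₀, hb⟩ a b hab
  exact h c₀ α hc₀ hb a b hab

end Pool.Agent.Results.MP_e95273_nt.CorrBounded
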