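import Pool.Agent.H47.WS.APat
import Pool.Agent.H47.WS.AExact

/-!
For every badly approximable `α`, every `m` and every `L > 0`, a random arc of length `L / N` contains exactly `m` of
the points `{p_n α}`, `n ≤ N`, with probability bounded below by a positive constant for all large `N`.
-/

namespace Pool.Agent.Results.MP_e95273_nt.ExactCounts

open Pool.Agent.H1.PP Pool.Agent.H47.WS

theorem result {α : ℝ} (hα : BadlyApprox α) (m : ℕ) {L : ℝ} (hL : 0 < L) :
    0 < Filter.liminf (fun N : ℕ => MeasureTheory.volume {θ : ℝ | θ ∈ Set.Ico 0 1 ∧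
      Set.ncard {n : ℕ | 1 ≤ n ∧ n ≤ N ∧
        (N : ℝ) * Int.fract ((Nat.nth Nat.Prime (n - 1) : ℝ) * α - θ) < L} = m}) Filter.atTop := by
  obtain ⟨-, c₀, hc₀, hb⟩ := hα
  have hBA : BA c₀ α := hb
  obtain ⟨c, hc, hev⟩ := exact_of_pat (pattern hc₀ hBA) m hL
  have hset : ∀ (N : ℕ) (θ : ℝ), Set.ncard {n : ℕ | 1 ≤ n ∧ n ≤ N ∧
      (N : ℝ) * Int.fract ((Nat.nth Nat.Prime (n - 1) : ℝ) * α - θ) < L} = cn α N L θ := by
    intro N θ
    unfold cn
    rw [← Set.ncard_coe_finset]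
    congr 1
    ext n
    have hfr : Int.fract (xs α n - θ) = Int.fract ((Nat.nth Nat.Prime (n - 1) : ℝ) * α - θ) := by
      unfold xs
      rw [Int.fract_eq_fract]
      refine ⟨-⌊(Nat.nth Nat.Prime (n - 1) : ℝ) * α⌋, ?_⟩
      rw [Int.fract]
      push_cast
      ring
    simp only [Set.mem_setOf_eq, Finset.coe_filter, Finset.mem_Icc, hfr, and_assoc]
  refine lt_of_lt_of_le (ENNReal.ofReal_pos.2 hc) (Filter.le_liminf_of_le ?_ ?_)
  · isBoundedDefault
  · filter_upwards [hev] with N hN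
    refine hN.trans (MeasureTheory.measure_mono ?_)
    rintro θ ⟨h1, h2⟩
    exact ⟨h1, by rw [hset]; exact h2⟩

end Pool.Agent.Results.MP_e95273_nt.ExactCounts
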