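import Pool.Agent.H47.WS.APat
import Pool.Agent.H47.WS.AClu

/-!
For every badly approximable `α`, a positive proportion of the points `{p_n α}`, `n ≤ N`, begin an isolated cluster of at
least `m + 1` points.
-/

namespace Pool.Agent.Results.MP_e95273_nt.IsolatedClusters

open Pool.Agent.H1.PP Pool.Agent.H47.WS

theorem result {α : ℝ} (hα : BadlyApprox α) (m : ℕ) : ∃ k : ℕ, m ≤ k ∧ ∀ C : ℝ, 0 < C → ∃ c : ℝ, 0 < c ∧
    ∀ᶠ N : ℕ in Filter.atTop, ∀ y : ℕ → ℝ, IsRearr (xs α) y N →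
      c * N ≤ (Set.ncard {j : ℕ | ∃ r, m ≤ r ∧ r ≤ k ∧ Clu C N y j r} : ℝ) := by
  obtain ⟨-, c₀, hc₀, hb⟩ := hα
  obtain ⟨k, hmk, hp⟩ := pattern hc₀ (show BA c₀ α from hb) (m + 1) (by omega)
  exact ⟨k, by omega, fun C hC => clusters_of_pat hmk hp hC⟩

end Pool.Agent.Results.MP_e95273_nt.IsolatedClusters
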