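import Pool.Agent.H1.PP.Final

/-!
The set of badly approximable numbers `α` for which the sequence `{p_n α}` (`p_n` the `n`-th prime)
has Poissonian pair correlations has Hausdorff dimension one.
-/

namespace Pool.Agent.Results.MP_e95273_nt.PpcBadly

open Pool.Agent.H1.PP

theorem result : dimH {α : ℝ | BadlyApprox α ∧ PPC (xs α)} = 1 := main

end Pool.Agent.Results.MP_e95273_nt.PpcBadly
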